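import Pool.Agent.AT10.Stmts3
import Pool.Agent.Helper94_PP.Db2b

/-!
# Squad AT10, row PRX: existence of compatible functions
-/

open scoped BigOperators

noncomputable section

namespace Pool.Agent.PP.T10.H3

open Pool.Agent.Helper51_AWC Pool.Agent.Helper79_WRA Pool.Agent.PP Pool.Agent.PP.KF
open Pool.Agent.PP.K9 Pool.Agent.PP.K9.H97 Pool.Agent.PP.H75 Pool.Agent.PP.T3 Pool.Agent.PP.T2
open Pool.Agent.PP.T5 Pool.Agent.PP.TB
open Pool.Agent.PP.T8 (rs pw fv rd Ip Rv)

theorem iv_of_bx {F G : Type} [Field F] [Group G] {P : Subgroup G} {b : G → F}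
    (hb : Bx (Subgroup.centralizer (P : Set G)) b) : ∀ v ∈ P, ∀ x, b (v * x * v⁻¹) = b x := by
  intro v hv x
  by_cases hx : x ∈ Subgroup.centralizer (P : Set G)
  · have h1 := Subgroup.mem_centralizer_iff.1 hx v hv
    rw [h1, mul_inv_cancel_right]
  · rw [hb.supp x hx, hb.supp]
    intro h
    apply hx
    have h1 := Subgroup.mem_centralizer_iff.1 h v hv
    have h2 : v * x * v⁻¹ = x := by
      have h3 : v * (v * x * v⁻¹) = v * x := by rw [h1, inv_mul_cancel_right]
      exact mul_left_cancel h3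
    rwa [h2] at h

theorem prx (pdc : PdcStmt) (unb : UnbStmt) : PrxStmt := by
  intro ℓ _ F _ hF G _ _ P hP b hb
  obtain ⟨n, k, hk, hort, hsum⟩ := pdc F G P b hb.mul (iv_of_bx hb)
  have hbr : ∑ a, br P (k a) = b := by
    funext x
    rw [Finset.sum_apply]
    by_cases hx : x ∈ Subgroup.centralizer (P : Set G)
    · rw [← congrFun hsum x, Finset.sum_apply]
      exact Finset.sum_congr rfl (fun a _ => br_in _ hx)
    · rw [hb.supp x hx]
      exact Finset.sum_eq_zero (fun a _ => br_out _ hx)
  obtain ⟨a, ha⟩ : ∃ a, br P (k a) ≠ 0 := by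
    by_contra h
    push Not at h
    apply hb.ne
    rw [← hbr]
    exact Finset.sum_eq_zero (fun a _ => h a)
  obtain ⟨β, hβ, h1⟩ := unb ℓ F hF G P hP (k a) (hk a) ha
  refine ⟨β, hβ, ?_⟩
  have h2 : mulF (k a) b = k a := by
    have h3 : mulF (k a) (∑ c, k c) = ∑ c, mulF (k a) (k c) := by
      have h4 : ∀ s : Finset (Fin n), mulF (k a) (∑ c ∈ s, k c) = ∑ c ∈ s, mulF (k a) (k c) := by
        intro s
        classical
        induction s using Finset.induction_on with
        | empty => rw [Finset.sum_empty, Finset.sum_empty, mulF_zero_right]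
        | insert c s hc ih => rw [Finset.sum_insert hc, Finset.sum_insert hc, H46.mulF_add, ih]
      exact h4 Finset.univ
    rw [← hsum, h3, Finset.sum_eq_single a]
    · exact (hk a).id
    · intro c _ hc
      exact hort a c (Ne.symm hc)
    · intro h
      exact absurd (Finset.mem_univ a) h
  have h3 : mulF (br P (k a)) b = br P (k a) := by
    rw [← H94.br_mul_right hb.supp, h2]
  rcases (hβ.bx P le_rfl).dich hb with h4 | h4
  · exact h4
  · exfalso
    apply ha
    rw [← h3, ← h1 P le_rfl, mulF_assoc, h4, mulF_zero_right]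

end Pool.Agent.PP.T10.H3
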